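import Pool.Agent.Helper93.Fin.Defs
import Pool.Agent.Helper93.Fin.Spaces
import Pool.Agent.helper8.Fin.Sp3b
import Pool.Agent.helper60.Fin.SU4b
import Pool.Agent.helper16.Fin.G2a
import Pool.Agent.Helper93.Fin.G2Final

/-!
# Positive flag curvature on three of the five spaces of Xu and Ziller

`Sp(3)/diag(z,z,q)` and `SU(4)/diag(zA,z,z⁻³)` admit no invariant reversible Finsler metric of
positive flag curvature; `G₂/SU(2)` (long root) admits one.
-/

noncomputable section

namespace Pool.Agent.Results.MP_f09395_gt.ThreeSpaces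

open Pool.Agent.Helper93.Fin

attribute [local instance] Matrix.linftyOpNormedRing Matrix.linftyOpNormedAlgebra

theorem result :
    (IsReductive Sp3.G Sp3.H Sp3.m ∧ ¬ AdmitsPositive Sp3.G Sp3.H Sp3.m) ∧
    (IsReductive SU4.G SU4.H SU4.m ∧ ¬ AdmitsPositive SU4.G SU4.H SU4.m) ∧
    (IsReductive (𝔸 := G2.End) G2.G G2.H G2.m ∧ AdmitsPositive (𝔸 := G2.End) G2.G G2.H G2.m) :=
  ⟨⟨Sp3.isReductive, Sp3.not_admitsPositive⟩, ⟨SU4.isReductive, SU4.not_admitsPositive⟩,
    ⟨G2.isReductive, G2.admitsPositive⟩⟩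

end Pool.Agent.Results.MP_f09395_gt.ThreeSpaces
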